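import Pool.Graph.R_pool_sql_team_39128cda.Results.MP_fe1d70_nt.Q2
import Pool.Graph.R_seed8.Results.MP_fe1d70_nt.SunOneModFour

/-!
# The four-parameter determinants for both residue classes

For `p ≡ 1 (mod 4)` the identities of Q1.  For `p ≡ 3 (mod 4)`, `p > 3`: there is an integer `q_p`
for which the identity of Q2 holds, with the term `(k/p) z` included,
`(-1)^{(h(-p)+1)/2} D_p = p^{(p-3)/4} (n y - 1 + (2-(2/p)) h(-p) (w+x)
    + ((2-(2/p))² h(-p)² - (2/p) 16 q_p/p)/n · z - (2/p) (16 q_p/p) (w x - y z))`,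
the value of `A_p`, and the congruence `16 (2/p) q_p ≡ (2-(2/p))² h(-p)² (mod n)`.
-/

set_option autoImplicit false

namespace Pool.Agent.Results.MP_fe1d70_nt.FourParameters

open NumberField

/-- The matrix of `D_p`; row `j` and column `k` of `Fin n`, `n = (p - 1) / 2`, stand for `j + 1` and
`k + 1`. -/
def DMatrix (p : ℕ) [Fact p.Prime] {R : Type} [CommRing R] (x y z w : R) :
    Matrix (Fin ((p - 1) / 2)) (Fin ((p - 1) / 2)) R :=
  Matrix.of fun j k =>
    x + (legendreSym p (((j : ℤ) + 1) + ((k : ℤ) + 1)) : R)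
      + (legendreSym p (((j : ℤ) + 1) - ((k : ℤ) + 1)) : R)
      + (legendreSym p ((j : ℤ) + 1) : R) * y
      + (legendreSym p ((k : ℤ) + 1) : R) * z
      + (legendreSym p (((j : ℤ) + 1) * ((k : ℤ) + 1)) : R) * w

/-- The matrix of `A_p`. -/
def AMatrix (p : ℕ) [Fact p.Prime] : Matrix (Fin ((p - 1) / 2)) (Fin ((p - 1) / 2)) ℤ :=
  Matrix.of fun j k => legendreSym p (((j : ℤ) + 1) + ((k : ℤ) + 1)) -
    legendreSym p (((j : ℤ) + 1) - ((k : ℤ) + 1))

/-- `(-1)^{(h+1)/2}`-free form of the right-hand side for `p ≡ 3 (mod 4)` -/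
theorem alg {α a b c d s P n L Q : ℂ} (hP : P ≠ 0)
    (h : ∀ x y w : ℂ, s * (α * ((1 + (x * a + 0 * c)) * (1 + (y * b + w * d)) -
      (x * b + 0 * d) * (y * a + w * c))) = P * (n * y - 1 + L * (w + x) - Q * w * x)) :
    ∀ x y z w : ℂ, n * (s * (α * ((1 + (x * a + z * c)) * (1 + (y * b + w * d)) -
      (x * b + z * d) * (y * a + w * c)))) =
      P * (n * (n * y - 1) + n * L * (w + x) + (L ^ 2 - Q) * z - n * Q * (w * x - y * z)) := by
  intro x y z w
  have h0 := h 0 0 0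
  have h1 := h 0 1 0
  have h2 := h 1 0 0
  have h3 := h 0 0 1
  have h4 := h 1 0 1
  have t0 : s * α = -P := by linear_combination h0
  have hb : b = -n := by
    apply mul_left_cancel₀ hP
    linear_combination (-1 : ℂ) * h1 + h0 + b * t0
  have ha : a = -L := by
    apply mul_left_cancel₀ hP
    linear_combination (-1 : ℂ) * h2 + h0 + a * t0
  have hd : d = -L := by
    apply mul_left_cancel₀ hP
    linear_combination (-1 : ℂ) * h3 + h0 + d * t0
  subst hb ha hd
  have hc : n * c = Q - L ^ 2 := by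
    apply mul_left_cancel₀ hP
    linear_combination (-1 : ℂ) * h4 + h0 * (1 : ℂ) + (n * c + L ^ 2 - 2 * L) * t0
  linear_combination (n * ((1 + (x * -L + z * c)) * (1 + (y * -n + w * -L)) -
      (x * -n + z * -L) * (y * -L + w * c))) * t0 - P * z * hc + (-n * x * w * P + n * z * y * P) * hc

/-- the columns `1` and `(j/p)` -/
noncomputable def Um (p : ℕ) [Fact p.Prime] : Matrix (Fin ((p - 1) / 2)) (Fin 2) ℂ :=
  Matrix.of fun j a => if a = 0 then 1 else (legendreSym p ((j : ℤ) + 1) : ℂ)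

theorem DMatrix_eq (p : ℕ) [Fact p.Prime] (x y z w : ℂ) :
    DMatrix p x y z w = DMatrix p 0 0 0 0 + Um p * (!![x, z; y, w] * (Um p).transpose) := by
  ext j k
  simp only [DMatrix, Um, Matrix.of_apply, Matrix.add_apply, Matrix.mul_apply, Fin.sum_univ_two,
    Matrix.transpose_apply, legendreSym.mul]
  simp
  ring

theorem det_D (p : ℕ) [Fact p.Prime] (h0 : (DMatrix p (0 : ℂ) 0 0 0).det ≠ 0) :
    ∃ a b c d : ℂ, ∀ x y z w : ℂ, (DMatrix p x y z w).det =
      (DMatrix p (0 : ℂ) 0 0 0).det * ((1 + (x * a + z * c)) * (1 + (y * b + w * d)) -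
        (x * b + z * d) * (y * a + w * c)) := by
  set M := DMatrix p (0 : ℂ) 0 0 0 with hM
  set G : Matrix (Fin 2) (Fin 2) ℂ := (Um p).transpose * M⁻¹ * Um p with hG
  refine ⟨G 0 0, G 0 1, G 1 0, G 1 1, fun x y z w => ?_⟩
  rw [DMatrix_eq, ← hM, Matrix.det_add_mul _ _ (isUnit_iff_ne_zero.2 h0)]
  have e : !![x, z; y, w] * (Um p).transpose * M⁻¹ * Um p = !![x, z; y, w] * G := by
    rw [hG]; simp only [Matrix.mul_assoc]
  have e00 : (!![x, z; y, w] * G) 0 0 = x * G 0 0 + z * G 1 0 := by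
    rw [Matrix.mul_apply, Fin.sum_univ_two]; rfl
  have e01 : (!![x, z; y, w] * G) 0 1 = x * G 0 1 + z * G 1 1 := by
    rw [Matrix.mul_apply, Fin.sum_univ_two]; rfl
  have e10 : (!![x, z; y, w] * G) 1 0 = y * G 0 0 + w * G 1 0 := by
    rw [Matrix.mul_apply, Fin.sum_univ_two]; rfl
  have e11 : (!![x, z; y, w] * G) 1 1 = y * G 0 1 + w * G 1 1 := by
    rw [Matrix.mul_apply, Fin.sum_univ_two]; rfl
  rw [e, Matrix.det_fin_two]
  simp only [Matrix.add_apply, e00, e01, e10, e11, Matrix.one_apply_eq]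
  rw [Matrix.one_apply_ne (by decide : (0 : Fin 2) ≠ 1), Matrix.one_apply_ne (by decide : (1 : Fin 2) ≠ 0)]
  ring

theorem E_eq (p : ℕ) [Fact p.Prime] (x y w : ℂ) : Q2.E p x y w = (DMatrix p x y 0 w).det := by
  rw [Q2.E, DMatrix]
  congr 1
  ext j k
  simp only [Matrix.of_apply, mul_zero, add_zero]

theorem cast_D (p : ℕ) [Fact p.Prime] (x y z w : ℤ) :
    (((DMatrix p x y z w).det : ℤ) : ℂ) = (DMatrix p (x : ℂ) y z w).det := by
  refine ((Int.castRingHom ℂ).map_det _).trans ?_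
  congr 1
  ext j k
  simp [DMatrix]

theorem A_eq (p : ℕ) [Fact p.Prime] (h : p % 4 = 3) :
    (AMatrix p).det = (DMatrix p (0 : ℤ) 0 0 0).det := by
  rw [← Matrix.det_transpose]
  congr 1
  ext j k
  have h1 : legendreSym p (-1) = -1 := by
    have hp2 : p ≠ 2 := by omega
    rw [legendreSym.at_neg_one hp2, ZMod.χ₄_nat_three_mod_four h]
  have h2 : legendreSym p (((k : ℤ) + 1) - ((j : ℤ) + 1)) =
      -legendreSym p (((j : ℤ) + 1) - ((k : ℤ) + 1)) := by
    have e : ((k : ℤ) + 1) - ((j : ℤ) + 1) = (-1) * (((j : ℤ) + 1) - ((k : ℤ) + 1)) := by ring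
    rw [e, legendreSym.mul, h1]; ring
  simp only [AMatrix, DMatrix, Matrix.transpose_apply, Matrix.of_apply, h2]
  rw [add_comm ((k : ℤ) + 1)]
  push_cast
  ring

/-- (1) For every prime `p ≡ 1 (mod 4)`: `A_p = (-p)^{(p-1)/4}` and
`D_p = (-p)^{(p-5)/4} (n² w x - (n y - 1)(n z - 1))`.  (2) For every prime `p ≡ 3 (mod 4)`, `p > 3`
(`K` is `ℚ(√-p)`, so `classNumber K` is `h(-p)`): `(-1)^{(h(-p)+1)/2} A_p = -p^{(p-3)/4}`, and there
is an integer `q_p` with `16 (2/p) q_p ≡ ((2-(2/p)) h(-p))² (mod n)`, with the identity of Q2 for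
`E_p`, and with the identity for `D_p` in all four parameters. -/
theorem result :
    (∀ (p : ℕ) [Fact p.Prime], p % 4 = 1 →
      (AMatrix p).det = (-(p : ℤ)) ^ ((p - 1) / 4) ∧
      ∀ (R : Type) [CommRing R] (x y z w : R),
        (DMatrix p x y z w).det = (-(p : R)) ^ ((p - 5) / 4) *
          ((((p - 1) / 2 : ℕ) : R) ^ 2 * w * x
            - ((((p - 1) / 2 : ℕ) : R) * y - 1) * ((((p - 1) / 2 : ℕ) : R) * z - 1))) ∧
    (∀ (p : ℕ) [Fact p.Prime], 3 < p → p % 4 = 3 → ∀ (K : Type) [Field K] [NumberField K],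
      Module.finrank ℚ K = 2 → (∃ s : K, s ^ 2 = -(p : K)) →
      (-1) ^ ((classNumber K + 1) / 2) * (AMatrix p).det = -(p : ℤ) ^ ((p - 3) / 4) ∧
      ∃ q : ℤ,
        (((p - 1) / 2 : ℕ) : ℤ) ∣
          16 * legendreSym p 2 * q - ((2 - legendreSym p 2) * classNumber K) ^ 2 ∧
        (∀ x y w : ℂ, (-1) ^ ((classNumber K + 1) / 2) * (DMatrix p x y 0 w).det =
          (p : ℂ) ^ ((p - 3) / 4) * (((p - 1) / 2 : ℕ) * y - 1 +
            (2 - (legendreSym p 2 : ℂ)) * classNumber K * (w + x) -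
            (legendreSym p 2 : ℂ) * (16 * q / p) * w * x)) ∧
        ∀ x y z w : ℂ, (-1) ^ ((classNumber K + 1) / 2) * (DMatrix p x y z w).det =
          (p : ℂ) ^ ((p - 3) / 4) * (((p - 1) / 2 : ℕ) * y - 1 +
            (2 - (legendreSym p 2 : ℂ)) * classNumber K * (w + x) +
            (((2 - (legendreSym p 2 : ℂ)) * classNumber K) ^ 2 -
              (legendreSym p 2 : ℂ) * (16 * q / p)) / ((p - 1) / 2 : ℕ) * z -
            (legendreSym p 2 : ℂ) * (16 * q / p) * (w * x - y * z))) := by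
  refine ⟨fun p _ hp => ⟨(SunOneModFour.result p hp).1, (SunOneModFour.result p hp).2⟩, ?_⟩
  intro p _ hp h K _ _ hK hs
  obtain ⟨s0, hs0⟩ := hs
  obtain ⟨q, hq⟩ := Q2.result p hp h K hK s0 hs0
  have hp0 : (p : ℂ) ≠ 0 := by
    have : (p : ℕ) ≠ 0 := by omega
    exact_mod_cast this
  have hn0 : (((p - 1) / 2 : ℕ) : ℂ) ≠ 0 := by
    have : (p - 1) / 2 ≠ 0 := by omega
    exact_mod_cast this
  have hP : (p : ℂ) ^ ((p - 3) / 4) ≠ 0 := pow_ne_zero _ hp0
  have hq' : ∀ x y w : ℂ, (-1) ^ ((classNumber K + 1) / 2) * (DMatrix p x y 0 w).det =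
      (p : ℂ) ^ ((p - 3) / 4) * (((p - 1) / 2 : ℕ) * y - 1 +
        (2 - (legendreSym p 2 : ℂ)) * classNumber K * (w + x) -
        (legendreSym p 2 : ℂ) * (16 * q / p) * w * x) := by
    intro x y w
    rw [← E_eq]; exact hq x y w
  have h000 := hq' 0 0 0
  have hdet : (DMatrix p (0 : ℂ) 0 0 0).det ≠ 0 := by
    intro h1
    rw [h1, mul_zero] at h000
    apply hP
    linear_combination h000
  obtain ⟨a, b, c, d, hD⟩ := det_D p hdet
  have key := alg (a := a) (b := b) (c := c) (d := d) (α := (DMatrix p (0 : ℂ) 0 0 0).det)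
    (s := (-1) ^ ((classNumber K + 1) / 2)) (P := (p : ℂ) ^ ((p - 3) / 4))
    (n := ((p - 1) / 2 : ℕ)) (L := (2 - (legendreSym p 2 : ℂ)) * classNumber K)
    (Q := (legendreSym p 2 : ℂ) * (16 * q / p)) hP (fun x y w => by
      rw [← hD x y 0 w, hq' x y w])
  have full : ∀ x y z w : ℂ, (-1) ^ ((classNumber K + 1) / 2) * (DMatrix p x y z w).det =
      (p : ℂ) ^ ((p - 3) / 4) * (((p - 1) / 2 : ℕ) * y - 1 +
        (2 - (legendreSym p 2 : ℂ)) * classNumber K * (w + x) +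
        (((2 - (legendreSym p 2 : ℂ)) * classNumber K) ^ 2 -
          (legendreSym p 2 : ℂ) * (16 * q / p)) / ((p - 1) / 2 : ℕ) * z -
        (legendreSym p 2 : ℂ) * (16 * q / p) * (w * x - y * z)) := by
    intro x y z w
    apply mul_left_cancel₀ hn0
    rw [hD x y z w, key x y z w]
    field_simp
  refine ⟨?_, q, ?_, hq', full⟩
  · have h1 : (((-1) ^ ((classNumber K + 1) / 2) * (AMatrix p).det : ℤ) : ℂ) =
        ((-(p : ℤ) ^ ((p - 3) / 4) : ℤ) : ℂ) := by
      rw [A_eq p h, Int.cast_mul, cast_D]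
      simp only [Int.cast_zero]
      push_cast
      rw [h000]
      ring
    exact_mod_cast h1
  · -- integrality at `z = 1`
    have h1 := full 0 0 1 0
    have hint := cast_D p 0 0 1 0
    simp only [Int.cast_zero, Int.cast_one] at hint
    rw [← hint] at h1
    set t := (DMatrix p (0 : ℤ) 0 1 0).det
    have hpn : (p : ℤ) = 2 * (((p - 1) / 2 : ℕ) : ℤ) + 1 := by
      have : p = 2 * ((p - 1) / 2) + 1 := by omega
      exact_mod_cast this
    set n : ℕ := (p - 1) / 2 with hn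
    have h2 : (n : ℤ) * ((-1) ^ ((classNumber K + 1) / 2) * t * p) =
        (p : ℤ) ^ ((p - 3) / 4) * (-n * p + ((2 - legendreSym p 2) * classNumber K) ^ 2 * p -
          16 * legendreSym p 2 * q) := by
      have h3 : (n : ℂ) * ((-1) ^ ((classNumber K + 1) / 2) * (t : ℂ) * p) =
        (p : ℂ) ^ ((p - 3) / 4) * (-n * p + ((2 - (legendreSym p 2 : ℂ)) * classNumber K) ^ 2 * p -
          16 * (legendreSym p 2 : ℂ) * q) := by
        rw [h1]
        field_simp
        ring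
      exact_mod_cast h3
    have hcop : IsCoprime (n : ℤ) (p : ℤ) := ⟨-2, 1, by rw [hpn]; ring⟩
    have h4 : (n : ℤ) ∣ (p : ℤ) ^ ((p - 3) / 4) * (-n * p +
        ((2 - legendreSym p 2) * classNumber K) ^ 2 * p - 16 * legendreSym p 2 * q) := ⟨_, h2.symm⟩
    have h5 := (hcop.pow_right (n := (p - 3) / 4)).dvd_of_dvd_mul_left h4
    have h6 : 16 * legendreSym p 2 * q - ((2 - legendreSym p 2) * classNumber K) ^ 2 =
        -(-n * p + ((2 - legendreSym p 2) * classNumber K) ^ 2 * p - 16 * legendreSym p 2 * q) +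
        n * (2 * ((2 - legendreSym p 2) * classNumber K) ^ 2 - p) := by
      linear_combination (((2 - legendreSym p 2) * (classNumber K : ℤ)) ^ 2) * hpn
    rw [h6]
    exact dvd_add (dvd_neg.2 h5) (dvd_mul_right _ _)

end Pool.Agent.Results.MP_fe1d70_nt.FourParameters
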